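import Pool.Agent.E8helper59.TS.Stm4
import Pool.Agent.E8helper93.TS.Main3

/-!
TS38: the density bound for at most `d + 2` directions of hyperplanes.
-/

set_option autoImplicit false
open MeasureTheory Set Filter Topology
open scoped Pointwise ENNReal

namespace Pool.Agent.E8helper70.TS

open Pool.Agent.E8helper59.TS
open Pool.Agent.E8helper93.TS (dt haar vol_im dt_mul dt_pos vol_ballG lim_quot)

theorem t_MAIN4 (h1 : S_BOXF) (h2 : S_AVG) : S_MAIN4 := by
  classical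
  intro d f K P₀ hKc hKv hKi hf hP hKP hmin T hT
  obtain ⟨Λ, hΛ, hbox⟩ := h1 d f K P₀ hKc hKv hKi hf hP hmin
  have hhaar := haar 0 d
  have hpos : 0 < volume P₀ :=
    lt_of_lt_of_le (isOpen_interior.measure_pos volume hKi)
      (measure_mono (interior_subset.trans hKP))
  have hPt : volume P₀ ≠ ⊤ := by
    obtain ⟨v, L, rfl⟩ := hP
    have hc : IsCompact ((fun x => v + L x) '' Icc (0 : G 0 d) 1) :=
      isCompact_Icc.image (by fun_prop)
    exact hc.measure_lt_top.ne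
  have hP0pos : 0 < (volume P₀).toReal := ENNReal.toReal_pos hpos.ne' hPt
  have hfinal := h2 0 d K T Λ (volume P₀).toReal hP0pos hKc (hKi.mono interior_subset) ?_
  · rwa [ENNReal.ofReal_toReal hPt] at hfinal
  intro ε hε
  have hev := (lim_quot 0 d 0 (fun _ => 0) (fun _ => 1)).eventually
    (ge_mem_nhds (show (1 : ℝ) < 1 + ε by linarith))
  obtain ⟨ℓ, hℓ, hℓ0⟩ := (hev.and (eventually_gt_atTop 0)).exists
  refine ⟨ℓ, hℓ0, fun y F hF => ?_⟩
  have hQ : 0 < (∏ _i : Fin 0, (2 * ℓ) ^ 2) * ∏ _j : Fin d, (2 * ℓ) := by positivity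
  have hvol : (volume (Λ.symm '' Metric.closedBall 0 ℓ)).toReal =
      dt Λ.symm * ((∏ _i : Fin 0, (2 * ℓ) ^ 2) * ∏ _j : Fin d, (2 * ℓ)) := by
    rw [vol_im, vol_ballG 0 d ℓ hℓ0, ENNReal.toReal_mul, ENNReal.toReal_ofReal (dt_pos _).le,
      ENNReal.toReal_ofReal hQ.le]
  have hq : (1 + 2 * ℓ) ^ d ≤
      (1 + ε) * ((∏ _i : Fin 0, (2 * ℓ) ^ 2) * ∏ _j : Fin d, (2 * ℓ)) := by
    rw [div_le_iff₀ hQ] at hℓ
    refine le_trans (le_of_eq ?_) hℓ
    rw [Finset.univ_eq_empty, Finset.prod_empty, one_mul, Finset.prod_const, Finset.card_univ,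
      Fintype.card_fin, add_comm]
  have hb := hbox T hT F y ℓ hℓ0.le hF
  have hds := dt_pos Λ.symm
  have hV : (volume P₀).toReal ≤ dt Λ.symm := by
    have e1 := dt_mul Λ
    have e2 : (volume P₀).toReal * dt Λ ≤ 1 := hΛ
    have e3 := mul_le_mul_of_nonneg_right e2 hds.le
    calc (volume P₀).toReal = (volume P₀).toReal * dt Λ * dt Λ.symm := by
          rw [mul_assoc, e1, mul_one]
      _ ≤ 1 * dt Λ.symm := e3
      _ = dt Λ.symm := one_mul _
  rw [hvol]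
  calc (F.card : ℝ) * (volume P₀).toReal ≤ (1 + 2 * ℓ) ^ d * dt Λ.symm :=
        mul_le_mul hb hV hP0pos.le (by positivity)
    _ ≤ ((1 + ε) * ((∏ _i : Fin 0, (2 * ℓ) ^ 2) * ∏ _j : Fin d, (2 * ℓ))) * dt Λ.symm :=
        mul_le_mul_of_nonneg_right hq hds.le
    _ = (1 + ε) * (dt Λ.symm * ((∏ _i : Fin 0, (2 * ℓ) ^ 2) * ∏ _j : Fin d, (2 * ℓ))) := by ring

end Pool.Agent.E8helper70.TS
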