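import Pool.Agent.E8helper59.TS.Stm5

/-!
TS41: counting when all the functionals vanish at a vector `x ≠ 0`.
-/

set_option autoImplicit false
open MeasureTheory Set Filter Topology
open scoped Pointwise ENNReal

namespace Pool.Agent.E8helper70.TS

open Pool.Agent.E8helper59.TSG

lemma card_ne {d : ℕ} (k : Fin d) : Fintype.card {j : Fin d // j ≠ k} = d - 1 := by
  classical
  have h := Fintype.card_subtype_compl (fun j : Fin d => j = k)
  rw [Fintype.card_subtype_eq, Fintype.card_fin] at h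
  exact h

theorem t_RANK : S_RANK := by
  classical
  intro d n f K T hKc hKv hKi hx hT
  obtain ⟨x, hx0, hx⟩ := hx
  obtain ⟨k, hk⟩ := Function.ne_iff.1 hx0
  rw [Pi.zero_apply] at hk
  obtain ⟨z, hz⟩ : ∃ z : Fin d → ℝ, z = (x k)⁻¹ • x := ⟨_, rfl⟩
  have hzk : z k = 1 := by
    rw [hz, Pi.smul_apply, smul_eq_mul, inv_mul_cancel₀ hk]
  have hfz : ∀ i, f i z = 0 := fun i => by rw [hz, map_smul, hx, smul_zero]
  let π : (Fin d → ℝ) → (Fin d → ℝ) := fun y => y - y k • z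
  have hπ : ∀ (y : Fin d → ℝ) (j : Fin d), π y j = y j - y k * z j := fun y j => rfl
  have hπk : ∀ y, π y k = 0 := fun y => by rw [hπ, hzk, mul_one, sub_self]
  have hg : ∀ g ∈ Multiples f, ∀ y, g (π y) = g y := by
    rintro g ⟨i, a, hga⟩ y
    have h1 : g z = 0 := by rw [hga, hfz, mul_zero]
    show g (y - y k • z) = g y
    rw [map_sub, map_smul, h1, smul_zero, sub_zero]
  obtain ⟨p, hp⟩ := hKi
  obtain ⟨r, hr, hball⟩ := Metric.nhds_basis_closedBall.mem_iff.1 (mem_interior_iff_mem_nhds.1 hp)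
  have sep : ∀ t ∈ T, ∀ s ∈ T, t ≠ s → r ≤ ‖π s - π t‖ := by
    intro t ht s hs hts
    obtain ⟨g, c, hg0, hgA, h1, h2, -⟩ := hT t ht s hs hts
    by_contra hcon
    rw [not_le] at hcon
    obtain ⟨u, hu⟩ : ∃ u, 0 < g u := by
      by_contra hno
      apply hg0
      ext v
      have h3 : ∀ u, g u ≤ 0 := fun u => not_lt.1 fun h => hno ⟨u, h⟩
      have h4 := h3 v
      have h5 := h3 (-v)
      rw [map_neg] at h5
      have h6 : g v = 0 := by linarith
      simpa using h6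
    obtain ⟨q, hq⟩ : ∃ q, q = π s - π t := ⟨_, rfl⟩
    rw [← hq] at hcon
    obtain ⟨lam, hlam⟩ : ∃ lam, lam = (r - ‖q‖) / (‖u‖ + 1) := ⟨_, rfl⟩
    have hun : 0 < ‖u‖ + 1 := by positivity
    have hlam0 : 0 < lam := by
      rw [hlam]
      exact div_pos (by linarith) hun
    have hlam1 : lam * ‖u‖ ≤ r - ‖q‖ := by
      have : lam * (‖u‖ + 1) = r - ‖q‖ := by rw [hlam, div_mul_cancel₀ _ hun.ne']
      nlinarith
    have hn : ‖q + lam • u‖ ≤ r := by
      refine (norm_add_le _ _).trans ?_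
      rw [norm_smul, Real.norm_eq_abs, abs_of_pos hlam0]
      linarith
    have hmem : p + (q + lam • u) ∈ K := by
      apply hball
      rw [Metric.mem_closedBall, dist_eq_norm, add_sub_cancel_left]
      exact hn
    have e1 := h1 _ hmem
    have e2 := h2 p (hball (Metric.mem_closedBall_self hr.le))
    rw [map_add, map_add, map_add, map_smul, smul_eq_mul] at e1
    rw [map_add] at e2
    have e3 : g q = g s - g t := by rw [hq, map_sub, hg g hgA, hg g hgA]
    have e4 := mul_pos hlam0 hu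
    linarith
  obtain ⟨M, hM⟩ : ∃ M, M = 1 + ‖z‖ := ⟨_, rfl⟩
  have hM0 : 0 < M := by rw [hM]; positivity
  refine ⟨(2 * M / r + 2) ^ (d - 1), by positivity, fun F y ℓ hℓ hF => ?_⟩
  obtain ⟨a, ha⟩ : ∃ a, a = M * ℓ / r := ⟨_, rfl⟩
  have ha0 : 0 ≤ a := by rw [ha]; positivity
  let φ : (Fin d → ℝ) → ({j : Fin d // j ≠ k} → ℤ) := fun t j => ⌊(π t j - π y j) / r⌋
  have hmaps : ∀ t ∈ F, φ t ∈ Fintype.piFinset (fun _ : {j : Fin d // j ≠ k} => Finset.Icc ⌊-a⌋ ⌊a⌋) := by
    intro t ht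
    rw [Fintype.mem_piFinset]
    intro j
    have h1 : ‖t - y‖ ≤ ℓ := by
      have := (hF t ht).2
      rwa [Metric.mem_closedBall, dist_eq_norm] at this
    have h2 : |π t j - π y j| ≤ M * ℓ := by
      have e : π t j - π y j = (t - y) j - (t - y) k * z j := by
        rw [hπ, hπ, Pi.sub_apply, Pi.sub_apply]; ring
      rw [e]
      have h3 : |(t - y) j| ≤ ℓ := (norm_le_pi_norm (t - y) j).trans h1
      have h4 : |(t - y) k| ≤ ℓ := (norm_le_pi_norm (t - y) k).trans h1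
      have h5 : |z j| ≤ ‖z‖ := norm_le_pi_norm z j
      calc |(t - y) j - (t - y) k * z j| ≤ |(t - y) j| + |(t - y) k * z j| := abs_sub _ _
        _ = |(t - y) j| + |(t - y) k| * |z j| := by rw [abs_mul]
        _ ≤ ℓ + ℓ * ‖z‖ := by
            have := mul_le_mul h4 h5 (abs_nonneg _) (by linarith)
            linarith
        _ = M * ℓ := by rw [hM]; ring
    have h6 : |(π t j - π y j) / r| ≤ a := by
      rw [abs_div, abs_of_pos hr, ha]
      exact div_le_div_of_nonneg_right h2 hr.le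
    rw [abs_le] at h6
    rw [Finset.mem_Icc]
    exact ⟨Int.floor_le_floor h6.1, Int.floor_le_floor h6.2⟩
  have hinj : Set.InjOn φ (F : Set (Fin d → ℝ)) := by
    intro t ht s hs hts
    by_contra hne
    have h1 := sep t (hF t ht).1 s (hF s hs).1 hne
    apply absurd h1
    rw [not_le, pi_norm_lt_iff hr]
    intro j
    rw [Pi.sub_apply, Real.norm_eq_abs]
    by_cases hj : j = k
    · rw [hj, hπk, hπk, sub_zero, abs_zero]
      exact hr
    · have h2 := congrFun hts ⟨j, hj⟩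
      have h3 : ⌊(π s j - π y j) / r⌋ = ⌊(π t j - π y j) / r⌋ := h2.symm
      have h4 := Int.abs_sub_lt_one_of_floor_eq_floor h3
      rw [← sub_div, abs_div, abs_of_pos hr, div_lt_one hr] at h4
      have e : π s j - π y j - (π t j - π y j) = π s j - π t j := by ring
      rwa [e] at h4
  have hcard := Finset.card_le_card_of_injOn φ hmaps hinj
  rw [Fintype.card_piFinset, Finset.prod_const, Finset.card_univ, card_ne, Int.card_Icc] at hcard
  have h7 : ((⌊a⌋ + 1 - ⌊-a⌋).toNat : ℝ) ≤ 2 * a + 2 := by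
    have h8 : (0 : ℤ) ≤ ⌊a⌋ + 1 - ⌊-a⌋ := by
      have : ⌊-a⌋ ≤ ⌊a⌋ := Int.floor_le_floor (by linarith)
      omega
    have h9 : ((⌊a⌋ + 1 - ⌊-a⌋).toNat : ℝ) = ((⌊a⌋ + 1 - ⌊-a⌋ : ℤ) : ℝ) := by
      have := Int.toNat_of_nonneg h8
      exact_mod_cast this
    rw [h9]
    push_cast
    have h10 := Int.floor_le a
    have h11 := Int.sub_one_lt_floor (-a)
    linarith
  calc (F.card : ℝ) ≤ (((⌊a⌋ + 1 - ⌊-a⌋).toNat ^ (d - 1) : ℕ) : ℝ) := by exact_mod_cast hcard
    _ = ((⌊a⌋ + 1 - ⌊-a⌋).toNat : ℝ) ^ (d - 1) := by push_cast; rfl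
    _ ≤ (2 * a + 2) ^ (d - 1) := pow_le_pow_left₀ (Nat.cast_nonneg _) h7 _
    _ ≤ ((2 * M / r + 2) * ℓ) ^ (d - 1) := by
        apply pow_le_pow_left₀ (by positivity)
        have e : (2 * M / r + 2) * ℓ = 2 * a + 2 * ℓ := by rw [ha]; ring
        rw [e]
        linarith
    _ = (2 * M / r + 2) ^ (d - 1) * ℓ ^ (d - 1) := mul_pow _ _ _

end Pool.Agent.E8helper70.TS
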